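import Mathlib

namespace Pool.Agent.Helper11.FinAx

/-! ### Part 1: a lattice embedding of the subgroup lattice of `(ℤ/m)³` forces `m = 0` in `D` -/

section Char

variable {D V : Type*} [DivisionRing D] [AddCommGroup V] [Module D V]

/-- the subgroup of `(ℤ/m)³` generated by a vector -/
abbrev sp {m : ℕ} (a b c : ZMod m) : AddSubgroup (ZMod m × ZMod m × ZMod m) :=
  AddSubgroup.zmultiples (a, b, c)

lemma mem_sp {m : ℕ} {a b c : ZMod m} {v : ZMod m × ZMod m × ZMod m} :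
    v ∈ sp a b c ↔ ∃ s : ZMod m, v = (s * a, s * b, s * c) := by
  rw [AddSubgroup.mem_zmultiples_iff]
  constructor
  · rintro ⟨k, hk⟩
    refine ⟨(k : ZMod m), ?_⟩
    rw [← hk]
    simp [zsmul_eq_mul]
  · rintro ⟨s, hs⟩
    obtain ⟨k, hk⟩ := ZMod.intCast_surjective s
    refine ⟨k, ?_⟩
    rw [hs, ← hk]
    simp [zsmul_eq_mul]

lemma mem_sp2 {m : ℕ} {a b c a' b' c' : ZMod m} {v : ZMod m × ZMod m × ZMod m} :
    v ∈ sp a b c ⊔ sp a' b' c' ↔
      ∃ s t : ZMod m, v = (s * a + t * a', s * b + t * b', s * c + t * c') := by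
  rw [AddSubgroup.mem_sup]
  constructor
  · rintro ⟨y, hy, z, hz, h⟩
    obtain ⟨s, hs⟩ := mem_sp.1 hy
    obtain ⟨t, ht⟩ := mem_sp.1 hz
    exact ⟨s, t, by rw [← h, hs, ht]; rfl⟩
  · rintro ⟨s, t, h⟩
    exact ⟨_, mem_sp.2 ⟨s, rfl⟩, _, mem_sp.2 ⟨t, rfl⟩, by rw [h]; rfl⟩

theorem char_of_embedding {m : ℕ} (hm : m ≠ 1)
    (f : LatticeHom (AddSubgroup (ZMod m × ZMod m × ZMod m)) (Submodule D V))
    (hf : Function.Injective f) : (m : D) = 0 := by
  have mono : Monotone f := OrderHomClass.mono f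
  -- the zero subgroup
  have hO : ∀ {a b c a' b' c' : ZMod m} {v : V}, (∀ s t : ZMod m, s * a = t * a' → s * b = t * b' →
      s * c = t * c' → s * a = 0 ∧ s * b = 0 ∧ s * c = 0) →
      v ∈ f (sp a b c) → v ∈ f (sp a' b' c') → v ∈ f ⊥ := by
    intro a b c a' b' c' v h h1 h2
    have : v ∈ f (sp a b c ⊓ sp a' b' c') := by rw [map_inf]; exact ⟨h1, h2⟩
    refine mono ?_ this
    rintro w ⟨hw1, hw2⟩
    obtain ⟨s, rfl⟩ := mem_sp.1 hw1
    obtain ⟨t, ht⟩ := mem_sp.1 hw2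
    simp only [Prod.mk.injEq] at ht
    obtain ⟨h1, h2, h3⟩ := h s t ht.1 ht.2.1 ht.2.2
    rw [AddSubgroup.mem_bot, h1, h2, h3]; rfl
  -- choose x
  have hne : f ⊥ ≠ f (sp 1 0 0) := by
    intro h
    have h' := hf h
    have : ((1 : ZMod m), (0 : ZMod m), (0 : ZMod m)) ∈ (⊥ : AddSubgroup _) := by
      rw [h']; exact mem_sp.2 ⟨1, by simp⟩
    rw [AddSubgroup.mem_bot] at this
    have h1 : (1 : ZMod m) = 0 := congrArg Prod.fst this
    have : Subsingleton (ZMod m) := subsingleton_of_zero_eq_one h1.symm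
    exact hm ((ZMod.subsingleton_iff).1 this)
  obtain ⟨x, hx1, hx0⟩ : ∃ x, x ∈ f (sp 1 0 0) ∧ x ∉ f ⊥ := by
    by_contra hcon
    push Not at hcon
    exact hne (le_antisymm (mono bot_le) hcon)
  -- choose y
  obtain ⟨y, hy1, hy2⟩ : ∃ y, y ∈ f (sp 0 1 0) ∧ x - y ∈ f (sp 1 (-1) 0) := by
    have : x ∈ f (sp 0 1 0 ⊔ sp 1 (-1) 0) := by
      refine mono ?_ hx1
      intro v hv
      obtain ⟨s, rfl⟩ := mem_sp.1 hv
      exact mem_sp2.2 ⟨s, s, by simp⟩
    rw [map_sup, Submodule.mem_sup] at this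
    obtain ⟨y, hy, z, hz, h⟩ := this
    exact ⟨y, hy, by rw [← h]; simpa using hz⟩
  obtain ⟨z, hz1, hz2⟩ : ∃ z, z ∈ f (sp 0 0 1) ∧ x - z ∈ f (sp 1 0 (-1)) := by
    have : x ∈ f (sp 0 0 1 ⊔ sp 1 0 (-1)) := by
      refine mono ?_ hx1
      intro v hv
      obtain ⟨s, rfl⟩ := mem_sp.1 hv
      exact mem_sp2.2 ⟨s, s, by simp⟩
    rw [map_sup, Submodule.mem_sup] at this
    obtain ⟨y, hy, z, hz, h⟩ := this
    exact ⟨y, hy, by rw [← h]; simpa using hz⟩
  have hyz : z - y ∈ f (sp 0 (-1) 1) := by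
    have h1 : z - y ∈ f ((sp 1 (-1) 0 ⊔ sp 1 0 (-1)) ⊓ (sp 0 1 0 ⊔ sp 0 0 1)) := by
      rw [map_inf, map_sup, map_sup]
      constructor
      · have : z - y = (x - y) - (x - z) := by abel
        rw [this]
        exact Submodule.sub_mem _ (Submodule.mem_sup_left hy2) (Submodule.mem_sup_right hz2)
      · exact Submodule.sub_mem _ (Submodule.mem_sup_right hz1) (Submodule.mem_sup_left hy1)
    refine mono ?_ h1
    rintro v ⟨hv1, hv2⟩
    obtain ⟨s, t, rfl⟩ := mem_sp2.1 hv1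
    obtain ⟨s', t', h⟩ := mem_sp2.1 hv2
    simp only [Prod.mk.injEq] at h
    obtain ⟨h1, -, -⟩ := h
    refine mem_sp.2 ⟨s, ?_⟩
    have : t = -s := by linear_combination h1
    rw [this]
    simp
  have key : ∀ k : ℕ, x - (k : ℕ) • y ∈ f (sp 1 (-(k : ZMod m)) 0) := by
    intro k
    induction k with
    | zero => simpa using hx1
    | succ k ih =>
      have h1 : x - k • y - z ∈ f ((sp 1 (-(k : ZMod m)) 0 ⊔ sp 0 0 1) ⊓ (sp 1 0 (-1) ⊔ sp 0 1 0)) := by
        rw [map_inf, map_sup, map_sup]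
        constructor
        · exact Submodule.sub_mem _ (Submodule.mem_sup_left ih) (Submodule.mem_sup_right hz1)
        · have : x - k • y - z = (x - z) - k • y := by abel
          rw [this]
          refine Submodule.sub_mem _ (Submodule.mem_sup_left hz2) (Submodule.mem_sup_right ?_)
          exact Submodule.smul_of_tower_mem _ k hy1
      have h2 : x - k • y - z ∈ f (sp 1 (-(k : ZMod m)) (-1)) := by
        refine mono ?_ h1
        rintro v ⟨hv1, hv2⟩
        obtain ⟨s, t, rfl⟩ := mem_sp2.1 hv1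
        obtain ⟨s', t', h⟩ := mem_sp2.1 hv2
        simp only [Prod.mk.injEq] at h
        obtain ⟨h1, h2, h3⟩ := h
        refine mem_sp.2 ⟨s, ?_⟩
        simp only [Prod.mk.injEq]
        refine ⟨by ring, by ring, ?_⟩
        linear_combination h3 + h1
      have h3 : x - (k + 1) • y ∈ f ((sp 1 (-(k : ZMod m)) (-1) ⊔ sp 0 (-1) 1) ⊓
          (sp 1 0 0 ⊔ sp 0 1 0)) := by
        rw [map_inf, map_sup, map_sup]
        constructor
        · have : x - (k + 1) • y = (x - k • y - z) + (z - y) := by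
            rw [add_smul, one_smul]; abel
          rw [this]
          exact Submodule.add_mem _ (Submodule.mem_sup_left h2) (Submodule.mem_sup_right hyz)
        · exact Submodule.sub_mem _ (Submodule.mem_sup_left hx1)
            (Submodule.mem_sup_right (Submodule.smul_of_tower_mem _ _ hy1))
      refine mono ?_ h3
      rintro v ⟨hv1, hv2⟩
      obtain ⟨s, t, rfl⟩ := mem_sp2.1 hv1
      obtain ⟨s', t', h⟩ := mem_sp2.1 hv2
      simp only [Prod.mk.injEq] at h
      obtain ⟨h1, h2, h3⟩ := h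
      refine mem_sp.2 ⟨s, ?_⟩
      have : t = s := by linear_combination h3
      rw [this]
      simp only [Prod.mk.injEq]
      push_cast
      refine ⟨by ring, by ring, by ring⟩
  have hmy : m • y ∈ f ⊥ := by
    have h1 := key m
    rw [ZMod.natCast_self, neg_zero] at h1
    have h2 : m • y ∈ f (sp 1 0 0) := by
      have : m • y = x - (x - m • y) := by abel
      rw [this]
      exact Submodule.sub_mem _ hx1 h1
    refine hO ?_ h2 (Submodule.smul_of_tower_mem _ m hy1)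
    intro s t h1 h2 h3
    simp at h1
    simp [h1]
  by_contra hmD
  have hy0 : y ∈ f ⊥ := by
    have h1 : (m : D) • y ∈ f ⊥ := by rwa [Nat.cast_smul_eq_nsmul]
    have := Submodule.smul_mem _ ((m : D)⁻¹) h1
    rwa [smul_smul, inv_mul_cancel₀ hmD, one_smul] at this
  have hx0' : x ∈ f (sp 1 (-1) 0) := by
    have : x = (x - y) + y := by abel
    rw [this]
    exact Submodule.add_mem _ hy2 (mono bot_le hy0)
  refine hx0 (hO ?_ hx1 hx0')
  intro s t h1 h2 h3
  simp at h1 h2 h3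
  simp [h1, h2]

end Char

end Pool.Agent.Helper11.FinAx
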