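import Mathlib

namespace Pool.Agent.Helper11.FinAx

/-! ### Part 2: an abelian group on which every nonzero integer acts bijectively is a `ℚ`-space -/

section Rat

variable {W : Type*} [AddCommGroup W] (h : ∀ d : ℤ, d ≠ 0 → Function.Bijective (fun w : W => d • w))

/-- the unique `z` with `q.den • z = q.num • w` -/
noncomputable def qsm (q : ℚ) (w : W) : W :=
  Classical.choose ((h (q.den : ℤ) (by exact_mod_cast q.den_ne_zero)).2 (q.num • w))

include h

lemma qsm_spec (q : ℚ) (w : W) : (q.den : ℤ) • qsm h q w = q.num • w :=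
  Classical.choose_spec ((h (q.den : ℤ) (by exact_mod_cast q.den_ne_zero)).2 (q.num • w))

lemma zinj {d : ℤ} (hd : d ≠ 0) {a b : W} (hab : d • a = d • b) : a = b := (h d hd).1 hab

lemma qsm_unique {q : ℚ} {n d : ℤ} (hd : d ≠ 0) (hq : q * d = n) {w z : W}
    (hz : d • z = n • w) : z = qsm h q w := by
  have hqd : (q.den : ℤ) ≠ 0 := by exact_mod_cast q.den_ne_zero
  have e : q.num * d = n * q.den := by
    have h1 : (q.num : ℚ) = q * q.den := by
      rw [Rat.mul_den_eq_num]
    have : ((q.num * d : ℤ) : ℚ) = ((n * q.den : ℤ) : ℚ) := by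
      push_cast
      rw [h1, ← hq]; ring
    exact_mod_cast this
  apply zinj h hqd
  rw [qsm_spec]
  apply zinj h hd
  rw [smul_smul, smul_smul, mul_comm d, mul_smul, hz, smul_smul, mul_comm _ n, ← e, mul_comm]

/-- the `ℚ`-vector space structure -/
@[instance_reducible] noncomputable def ratModule : Module ℚ W where
  smul := qsm h
  one_smul w := (qsm_unique h (n := 1) (d := 1) one_ne_zero (by simp) rfl).symm
  mul_smul q r w := by
    refine (qsm_unique h (n := q.num * r.num) (d := r.den * q.den) ?_ ?_ ?_).symm
    · have := q.den_ne_zero; have := r.den_ne_zero; positivity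
    · push_cast
      rw [← Rat.mul_den_eq_num q, ← Rat.mul_den_eq_num r]; ring
    · change _ • qsm h q (qsm h r w) = _
      rw [mul_smul, qsm_spec, smul_smul, mul_comm (r.den : ℤ), mul_smul, qsm_spec, smul_smul]
  smul_zero q := (qsm_unique h (n := q.num) (d := q.den) (by exact_mod_cast q.den_ne_zero)
    (by rw [← Rat.mul_den_eq_num q]; simp) (by simp)).symm
  smul_add q v w := by
    refine (qsm_unique h (n := q.num) (d := q.den) (by exact_mod_cast q.den_ne_zero)
      (by rw [← Rat.mul_den_eq_num q]; simp) ?_).symm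
    change _ • (qsm h q v + qsm h q w) = _
    rw [smul_add, smul_add, qsm_spec, qsm_spec]
  add_smul q r w := by
    refine (qsm_unique h (n := q.num * r.den + r.num * q.den) (d := q.den * r.den) ?_ ?_ ?_).symm
    · have := q.den_ne_zero; have := r.den_ne_zero; positivity
    · push_cast
      rw [← Rat.mul_den_eq_num q, ← Rat.mul_den_eq_num r]; ring
    · change _ • (qsm h q w + qsm h r w) = _
      rw [smul_add, mul_comm (q.den : ℤ), mul_smul, qsm_spec, mul_comm (r.den : ℤ), mul_smul,
        qsm_spec, smul_smul, smul_smul, ← add_smul]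
      congr 1; ring
  zero_smul w := (qsm_unique h (n := 0) (d := 1) one_ne_zero (by simp) (by simp)).symm

end Rat

end Pool.Agent.Helper11.FinAx
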