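import Mathlib
import Pool.Agent.Helper11.FinAxB

namespace Pool.Agent.Helper11.FinAx

open Filter

/-! ### Part 3: the ultraproduct of subgroup lattices inside a `ℚ`-subspace lattice -/

section Phi

variable {ι : Type*} (U : Ultrafilter ι) (A : ι → Type*) [∀ i, AddCommGroup (A i)]

/-- families vanishing almost everywhere -/
def ZZ : AddSubgroup (∀ i, A i) where
  carrier := {a | ∀ᶠ i in (U : Filter ι), a i = 0}
  zero_mem' := Eventually.of_forall fun _ => rfl
  add_mem' {a b} ha hb := by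
    filter_upwards [ha, hb] with i h1 h2
    simp [h1, h2]
  neg_mem' {a} ha := by
    filter_upwards [ha] with i h1
    simp [h1]

/-- the ultraproduct group -/
abbrev WW := (∀ i, A i) ⧸ ZZ U A

variable {A}

/-- families almost everywhere in `X` -/
def PP (X : ∀ i, AddSubgroup (A i)) : AddSubgroup (∀ i, A i) where
  carrier := {a | ∀ᶠ i in (U : Filter ι), a i ∈ X i}
  zero_mem' := Eventually.of_forall fun _ => zero_mem _
  add_mem' {a b} ha hb := by
    filter_upwards [ha, hb] with i h1 h2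
    exact add_mem h1 h2
  neg_mem' {a} ha := by
    filter_upwards [ha] with i h1
    exact neg_mem h1

/-- the subgroup of the ultraproduct attached to a family of subgroups -/
def Ph (X : ∀ i, AddSubgroup (A i)) : AddSubgroup (WW U A) :=
  (PP U X).map (QuotientAddGroup.mk' (ZZ U A))

variable {U}

lemma mem_Ph {X : ∀ i, AddSubgroup (A i)} {a : ∀ i, A i} :
    (QuotientAddGroup.mk' (ZZ U A) a) ∈ Ph U X ↔ ∀ᶠ i in (U : Filter ι), a i ∈ X i := by
  constructor
  · rintro ⟨b, hb, hab⟩
    have h1 : -b + a ∈ ZZ U A := (QuotientAddGroup.eq).1 hab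
    filter_upwards [h1, hb] with i h2 h3
    have : a i = b i := by
      have h4 : -(b i) + a i = 0 := h2
      rw [neg_add_eq_zero] at h4
      exact h4.symm
    rw [this]; exact h3
  · intro h
    exact ⟨a, h, rfl⟩

lemma Ph_le {X Y : ∀ i, AddSubgroup (A i)} :
    Ph U X ≤ Ph U Y ↔ ∀ᶠ i in (U : Filter ι), X i ≤ Y i := by
  constructor
  · intro h
    by_contra hcon
    rw [← Ultrafilter.eventually_not] at hcon
    have hch : ∀ i, ∃ a : A i, ¬ X i ≤ Y i → (a ∈ X i ∧ a ∉ Y i) := by
      intro i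
      by_cases hi : X i ≤ Y i
      · exact ⟨0, fun h => absurd hi h⟩
      · obtain ⟨a, ha⟩ := SetLike.not_le_iff_exists.1 hi
        exact ⟨a, fun _ => ha⟩
    choose a ha using hch
    have h1 : (QuotientAddGroup.mk' (ZZ U A) a) ∈ Ph U X := by
      rw [mem_Ph]
      filter_upwards [hcon] with i hi
      exact (ha i hi).1
    have h2 := mem_Ph.1 (h h1)
    obtain ⟨i, hi1, hi2⟩ := (hcon.and h2).exists
    exact (ha i hi1).2 hi2
  · intro h w hw
    obtain ⟨a, rfl⟩ := QuotientAddGroup.mk'_surjective _ w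
    rw [mem_Ph] at hw ⊢
    filter_upwards [h, hw] with i h1 h2
    exact h1 h2

lemma Ph_inf {X Y : ∀ i, AddSubgroup (A i)} :
    Ph U (fun i => X i ⊓ Y i) = Ph U X ⊓ Ph U Y := by
  ext w
  obtain ⟨a, rfl⟩ := QuotientAddGroup.mk'_surjective _ w
  rw [AddSubgroup.mem_inf, mem_Ph, mem_Ph, mem_Ph, ← eventually_and]
  rfl

lemma Ph_sup {X Y : ∀ i, AddSubgroup (A i)} :
    Ph U (fun i => X i ⊔ Y i) = Ph U X ⊔ Ph U Y := by
  apply le_antisymm
  · intro w hw
    obtain ⟨a, rfl⟩ := QuotientAddGroup.mk'_surjective _ w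
    rw [mem_Ph] at hw
    have hch : ∀ i, ∃ b c : A i, a i = b + c ∧ (a i ∈ X i ⊔ Y i → b ∈ X i ∧ c ∈ Y i) := by
      intro i
      by_cases hi : a i ∈ X i ⊔ Y i
      · obtain ⟨b, hb, c, hc, h⟩ := AddSubgroup.mem_sup.1 hi
        exact ⟨b, c, h.symm, fun _ => ⟨hb, hc⟩⟩
      · exact ⟨a i, 0, by simp, fun h => absurd h hi⟩
    choose b c hbc h using hch
    have : a = b + c := funext hbc
    rw [this, map_add]
    refine AddSubgroup.add_mem_sup ?_ ?_
    · rw [mem_Ph]
      filter_upwards [hw] with i hi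
      exact (h i hi).1
    · rw [mem_Ph]
      filter_upwards [hw] with i hi
      exact (h i hi).2
  · refine sup_le (Ph_le.2 (Eventually.of_forall fun i => le_sup_left))
      (Ph_le.2 (Eventually.of_forall fun i => le_sup_right))

lemma Ph_eq {X Y : ∀ i, AddSubgroup (A i)} :
    Ph U X = Ph U Y ↔ ∀ᶠ i in (U : Filter ι), X i = Y i := by
  rw [le_antisymm_iff, Ph_le, Ph_le, ← eventually_and]
  constructor
  · intro h
    filter_upwards [h] with i hi
    exact le_antisymm hi.1 hi.2
  · intro h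
    filter_upwards [h] with i hi
    exact ⟨hi.le, hi.ge⟩

variable {N : ι → ℕ} (hN : ∀ i (a : A i), (N i) • a = 0)
  (hc : ∀ d : ℤ, d ≠ 0 → ∀ᶠ i in (U : Filter ι), IsCoprime d (N i : ℤ))

include hN hc

lemma div_mem {X : ∀ i, AddSubgroup (A i)} {d : ℤ} (hd : d ≠ 0) {w : WW U A}
    (h : d • w ∈ Ph U X) : w ∈ Ph U X := by
  obtain ⟨a, rfl⟩ := QuotientAddGroup.mk'_surjective _ w
  rw [← map_zsmul, mem_Ph] at h
  rw [mem_Ph]
  filter_upwards [h, hc d hd] with i h1 h2
  obtain ⟨u, v, huv⟩ := h2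
  have : a i = u • ((d • a) i) := by
    rw [Pi.smul_apply, smul_smul]
    calc a i = (1 : ℤ) • a i := (one_smul _ _).symm
      _ = (u * d + v * N i) • a i := by rw [huv]
      _ = (u * d) • a i := by
        rw [add_smul, mul_smul v, natCast_zsmul, hN, smul_zero, add_zero]
  rw [this]
  exact AddSubgroup.zsmul_mem _ h1 u

lemma bij (d : ℤ) (hd : d ≠ 0) : Function.Bijective (fun w : WW U A => d • w) := by
  constructor
  · intro w w' hww
    have h1 : d • (w - w') = 0 := by
      rw [zsmul_sub]; exact sub_eq_zero.2 hww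
    have h2 : w - w' ∈ Ph U (fun i => (⊥ : AddSubgroup (A i))) := by
      apply div_mem hN hc hd
      rw [h1]; exact zero_mem _
    rw [← sub_eq_zero]
    obtain ⟨a, ha⟩ := QuotientAddGroup.mk'_surjective _ (w - w')
    rw [← ha, mem_Ph] at h2
    rw [← ha]
    exact (QuotientAddGroup.eq_zero_iff a).2 h2
  · intro w
    obtain ⟨a, rfl⟩ := QuotientAddGroup.mk'_surjective _ w
    have hch : ∀ i, ∃ b : A i, IsCoprime d (N i : ℤ) → d • b = a i := by
      intro i
      by_cases hi : IsCoprime d (N i : ℤ)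
      · obtain ⟨u, v, huv⟩ := hi
        refine ⟨u • a i, fun _ => ?_⟩
        rw [smul_smul]
        calc (d * u) • a i = (u * d + v * N i) • a i := by
              rw [add_smul, mul_smul v, natCast_zsmul, hN, smul_zero, add_zero, mul_comm]
          _ = a i := by rw [huv, one_smul]
      · exact ⟨0, fun h => absurd h hi⟩
    choose b hb using hch
    refine ⟨QuotientAddGroup.mk' _ b, ?_⟩
    change d • (QuotientAddGroup.mk' _ b) = _
    rw [← map_zsmul]
    refine (QuotientAddGroup.eq).2 ?_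
    change ∀ᶠ i in (U : Filter ι), (-(d • b) + a) i = 0
    filter_upwards [hc d hd] with i hi
    change -(d • b i) + a i = 0
    rw [hb i hi]; simp

/-- the ultraproduct group as a rational vector space -/
@[instance_reducible] noncomputable def mW : Module ℚ (WW U A) := ratModule (bij hN hc)

/-- `Ph` as a rational subspace -/
noncomputable def PhQ (X : ∀ i, AddSubgroup (A i)) :
    @Submodule ℚ (WW U A) _ _ (mW hN hc) :=
  let _ := mW hN hc
  { Ph U X with
    smul_mem' := by
      intro q w hw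
      have h1 : (q.den : ℤ) • (q • w) = q.num • w := qsm_spec (bij hN hc) q w
      have hw' : w ∈ Ph U X := hw
      have h2 : (q.den : ℤ) • (q • w) ∈ Ph U X := by
        rw [h1]; exact AddSubgroup.zsmul_mem _ hw' _
      exact div_mem hN hc (by exact_mod_cast q.den_ne_zero) h2 }

lemma mem_PhQ {X : ∀ i, AddSubgroup (A i)} {w : WW U A} :
    letI := mW hN hc
    w ∈ PhQ hN hc X ↔ w ∈ Ph U X := Iff.rfl

lemma PhQ_inf {X Y : ∀ i, AddSubgroup (A i)} :
    letI := mW hN hc
    PhQ hN hc (fun i => X i ⊓ Y i) = PhQ hN hc X ⊓ PhQ hN hc Y := by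
  let _ := mW hN hc
  ext w
  rw [mem_PhQ, Ph_inf]
  rfl

lemma PhQ_sup {X Y : ∀ i, AddSubgroup (A i)} :
    letI := mW hN hc
    PhQ hN hc (fun i => X i ⊔ Y i) = PhQ hN hc X ⊔ PhQ hN hc Y := by
  let _ := mW hN hc
  ext w
  rw [mem_PhQ, Ph_sup, AddSubgroup.mem_sup, Submodule.mem_sup]
  rfl

lemma PhQ_eq {X Y : ∀ i, AddSubgroup (A i)} :
    letI := mW hN hc
    PhQ hN hc X = PhQ hN hc Y ↔ ∀ᶠ i in (U : Filter ι), X i = Y i := by
  let _ := mW hN hc
  rw [← Ph_eq]
  constructor
  · intro h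
    ext w
    rw [← mem_PhQ hN hc, h, mem_PhQ]
  · intro h
    ext w
    rw [mem_PhQ, h, mem_PhQ]

end Phi

end Pool.Agent.Helper11.FinAx
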