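import Mathlib

namespace Pool.Agent.Helper11.FinAx

universe u v w

/-- The function symbols of the language of lattices: two symbols of arity `2`. -/
inductive LatFn : ℕ → Type
  | meet : LatFn 2
  | join : LatFn 2

/-- The first-order language of lattices: the two binary function symbols and no relation symbol
(equality is a logical symbol, as always in Mathlib). -/
def LatLang : FirstOrder.Language.{0, 0} := ⟨LatFn, fun _ => Empty⟩

/-- A lattice as a first-order structure. -/
instance latStructure (L : Type u) [Lattice L] : LatLang.Structure L where
  funMap := fun {_} f => match f with
    | LatFn.meet => fun x => x 0 ⊓ x 1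
    | LatFn.join => fun x => x 0 ⊔ x 1
  RelMap := fun {_} r => r.elim

/-- `InK L`: the lattice `L` is isomorphic to a sublattice of the lattice of subspaces of a vector
space over a division ring. -/
def InK (L : Type u) [Lattice L] : Prop :=
  ∃ (D : Type v) (_ : DivisionRing D) (V : Type w) (_ : AddCommGroup V) (_ : Module D V)
    (f : LatticeHom L (Submodule D V)), Function.Injective f

end Pool.Agent.Helper11.FinAx
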