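import Mathlib
import Pool.Agent.Helper11.FinAxDefs
import Pool.Agent.Helper11.FinAxA
import Pool.Agent.Helper11.FinAxC

namespace Pool.Agent.Helper11.FinAx

open FirstOrder

universe u v w

/-! ### Part 4: transport to higher universes -/

section Transport

lemma InK.lift {L : Type u} [Lattice L] (h : InK.{u, 0, 0} L) : InK.{u, v, w} L := by
  obtain ⟨D, _, V, _, _, f, hf⟩ := h
  let e : D ≃+* ULift.{v} D := ULift.ringEquiv.symm
  let σ : D →+* ULift.{v} D := e
  let σ' : ULift.{v} D →+* D := e.symm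
  have : RingHomInvPair σ σ' := RingHomInvPair.of_ringEquiv e
  have : RingHomInvPair σ' σ := RingHomInvPair.symm σ σ'
  let E : V ≃ₛₗ[σ] ULift.{w} V :=
    { toFun := ULift.up
      invFun := ULift.down
      left_inv := fun _ => rfl
      right_inv := fun _ => rfl
      map_add' := fun _ _ => rfl
      map_smul' := fun _ _ => rfl }
  let o : Submodule D V ≃o Submodule (ULift.{v} D) (ULift.{w} V) := Submodule.orderIsoMapComap E
  refine ⟨ULift.{v} D, inferInstance, ULift.{w} V, inferInstance, inferInstance,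
    { toFun := fun x => o (f x)
      map_sup' := fun a b => by rw [SupHomClass.map_sup f, OrderIso.map_sup]
      map_inf' := fun a b => by rw [InfHomClass.map_inf f, OrderIso.map_inf] }, ?_⟩
  intro a b hab
  exact hf (o.injective hab)

lemma InK.of_embedding {L : Type u} [Lattice L] {L' : Type*} [Lattice L'] (g : LatticeHom L L')
    (hg : Function.Injective g) (h : InK.{_, v, w} L') : InK.{u, v, w} L := by
  obtain ⟨D, _, V, _, _, f, hf⟩ := h
  exact ⟨D, inferInstance, V, inferInstance, inferInstance, f.comp g, hf.comp hg⟩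

end Transport

/-! ### Part 5: the ultraproduct is in the class -/

section Ultra

variable {ι : Type} (U : Ultrafilter ι) {M : ι → Type u} [∀ i, Lattice (M i)]
  {S : Type u} [Lattice S] (F : (∀ i, M i) → S)
  (hsup : ∀ x y, F (fun i => x i ⊔ y i) = F x ⊔ F y)
  (hinf : ∀ x y, F (fun i => x i ⊓ y i) = F x ⊓ F y)
  (heq : ∀ x y, F x = F y ↔ ∀ᶠ i in (U : Filter ι), x i = y i)
  (hsurj : Function.Surjective F)

/-- the isomorphism of the ultraproduct with `S` -/
noncomputable def isoS :
    LatLang.Equiv ((U : Filter ι).Product M) S where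
  toEquiv := Equiv.ofBijective
    (Quotient.lift (s := (U : Filter ι).productSetoid M) F (fun x y h => (heq x y).2 h)) (by
      constructor
      · intro x y h
        induction x using Quotient.ind
        induction y using Quotient.ind
        exact Quotient.sound ((heq _ _).1 h)
      · intro s
        obtain ⟨x, rfl⟩ := hsurj s
        exact ⟨Quotient.mk _ x, rfl⟩)
  map_fun' := by
    intro n f x
    obtain ⟨y, rfl⟩ : ∃ y : Fin n → ∀ a, M a,
        (fun i => ((y i : (U : Filter ι).Product M))) = x :=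
      ⟨fun i => (x i).out, funext fun i => Quotient.out_eq _⟩
    refine (congrArg _ (Language.Ultraproduct.funMap_cast f y)).trans ?_
    cases f with
    | meet => exact hinf (y 0) (y 1)
    | join => exact hsup (y 0) (y 1)
  map_rel' := by
    intro n r
    exact r.elim

include hsup hinf heq hsurj

theorem models_iff [∀ i, Nonempty (M i)] (φ : LatLang.Sentence) :
    S ⊨ φ ↔ ∀ᶠ i in (U : Filter ι), M i ⊨ φ := by
  rw [← Language.Ultraproduct.sentence_realize]
  exact (Language.StrongHomClass.realize_sentence (isoS U F hsup hinf heq hsurj) φ).symm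

end Ultra

/-! ### Part 6: the concrete lattices -/

section Concrete

/-- the `n`-th group `(ℤ/p)³ × (ℤ/q)³` -/
abbrev AA (n : ℕ) : Type :=
  (ZMod (Nat.nth Nat.Prime n) × ZMod (Nat.nth Nat.Prime n) × ZMod (Nat.nth Nat.Prime n)) ×
  (ZMod (Nat.nth Nat.Prime (n + 1)) × ZMod (Nat.nth Nat.Prime (n + 1)) ×
    ZMod (Nat.nth Nat.Prime (n + 1)))

/-- its exponent -/
noncomputable def NN (n : ℕ) : ℕ := Nat.nth Nat.Prime n * Nat.nth Nat.Prime (n + 1)

lemma hN (n : ℕ) (a : AA n) : (NN n) • a = 0 := by
  obtain ⟨⟨a1, a2, a3⟩, ⟨b1, b2, b3⟩⟩ := a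
  simp [NN, nsmul_eq_mul]

lemma hc (U : Ultrafilter ℕ) (hU : (U : Filter ℕ) ≤ Filter.cofinite) (d : ℤ) (hd : d ≠ 0) :
    ∀ᶠ i in (U : Filter ℕ), IsCoprime d (NN i : ℤ) := by
  apply hU
  rw [Nat.cofinite_eq_atTop]
  filter_upwards [Filter.eventually_ge_atTop d.natAbs] with n hn
  have hp : Nat.Prime (Nat.nth Nat.Prime n) := Nat.prime_nth_prime n
  have hq : Nat.Prime (Nat.nth Nat.Prime (n + 1)) := Nat.prime_nth_prime _
  have h1 : n < Nat.nth Nat.Prime n := by
    have := Nat.add_two_le_nth_prime n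
    omega
  have h2 : n < Nat.nth Nat.Prime (n + 1) := by
    have := Nat.add_two_le_nth_prime (n + 1)
    omega
  have h0 : 0 < d.natAbs := Int.natAbs_pos.2 hd
  rw [Int.isCoprime_iff_gcd_eq_one]
  have : Nat.Coprime d.natAbs (NN n) := by
    unfold NN
    apply Nat.Coprime.mul_right
    · exact Nat.coprime_of_lt_prime h0.ne' (by omega) hp |>.symm
    · exact Nat.coprime_of_lt_prime h0.ne' (by omega) hq |>.symm
  simpa [Int.gcd] using this

/-- the lattice hom induced by an injective homomorphism of groups -/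
def mapHom {A B : Type*} [AddCommGroup A] [AddCommGroup B] (f : A →+ B)
    (hf : Function.Injective f) : LatticeHom (AddSubgroup A) (AddSubgroup B) where
  toFun := AddSubgroup.map f
  map_sup' a b := AddSubgroup.map_sup a b f
  map_inf' a b := AddSubgroup.map_inf a b f hf

lemma inl_inj {A B : Type*} [AddCommGroup A] [AddCommGroup B] :
    Function.Injective (AddMonoidHom.inl A B) := fun _ _ h => congrArg Prod.fst h

lemma inr_inj {A B : Type*} [AddCommGroup A] [AddCommGroup B] :
    Function.Injective (AddMonoidHom.inr A B) := fun _ _ h => congrArg Prod.snd h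

lemma not_InK (n : ℕ) : ¬ InK.{0, v, w} (AddSubgroup (AA n)) := by
  rintro ⟨D, _, V, _, _, f, hf⟩
  have hp : Nat.Prime (Nat.nth Nat.Prime n) := Nat.prime_nth_prime n
  have hq : Nat.Prime (Nat.nth Nat.Prime (n + 1)) := Nat.prime_nth_prime _
  have h1 : ((Nat.nth Nat.Prime n : ℕ) : D) = 0 := by
    apply char_of_embedding hp.one_lt.ne'
      (f.comp (mapHom (AddMonoidHom.inl _ _) inl_inj))
    exact hf.comp (AddSubgroup.map_injective inl_inj)
  have h2 : ((Nat.nth Nat.Prime (n + 1) : ℕ) : D) = 0 := by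
    apply char_of_embedding hq.one_lt.ne'
      (f.comp (mapHom (AddMonoidHom.inr _ _) inr_inj))
    exact hf.comp (AddSubgroup.map_injective inr_inj)
  have hne : Nat.nth Nat.Prime n ≠ Nat.nth Nat.Prime (n + 1) := by
    have := Nat.nth_strictMono Nat.infinite_setOfPred_prime (Nat.lt_succ_self n)
    exact this.ne
  have hco : Nat.Coprime (Nat.nth Nat.Prime n) (Nat.nth Nat.Prime (n + 1)) :=
    (Nat.coprime_primes hp hq).2 hne
  have hco' : IsCoprime ((Nat.nth Nat.Prime n : ℕ) : ℤ) ((Nat.nth Nat.Prime (n + 1) : ℕ) : ℤ) :=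
    Nat.isCoprime_iff_coprime.2 hco
  obtain ⟨a, b, hab⟩ := hco'
  have h3 : ((a * (Nat.nth Nat.Prime n : ℕ) + b * (Nat.nth Nat.Prime (n + 1) : ℕ) : ℤ) : D) = 1 := by
    rw [hab]; simp
  push_cast at h3
  rw [h1, h2] at h3
  simp at h3

end Concrete

section Final

theorem main :
    ¬ ∃ T : Set LatLang.Sentence, T.Finite ∧
      ∀ (L : Type u) [Lattice L] [Nonempty L], InK.{u, v, w} L ↔ ∀ φ ∈ T, L ⊨ φ := by
  rintro ⟨T, hT, h⟩
  let U : Ultrafilter ℕ := Filter.hyperfilter ℕ
  have hU : (U : Filter ℕ) ≤ Filter.cofinite := Filter.hyperfilter_le_cofinite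
  let M : ℕ → Type u := fun n => ULift.{u} (AddSubgroup (AA n))
  have hcU := hc U hU
  let _ := mW hN hcU
  let S : Sublattice (Submodule ℚ (WW U AA)) :=
    { carrier := Set.range (PhQ hN hcU)
      supClosed' := by
        rintro _ ⟨X, rfl⟩ _ ⟨Y, rfl⟩
        exact ⟨fun i => X i ⊔ Y i, PhQ_sup hN hcU⟩
      infClosed' := by
        rintro _ ⟨X, rfl⟩ _ ⟨Y, rfl⟩
        exact ⟨fun i => X i ⊓ Y i, PhQ_inf hN hcU⟩ }
  let F : (∀ i, M i) → ULift.{u} S := fun x => ULift.up ⟨PhQ hN hcU (fun i => (x i).down), ⟨_, rfl⟩⟩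
  have hS : InK.{u, v, w} (ULift.{u} S) := by
    apply InK.lift
    refine ⟨ℚ, inferInstance, WW U AA, inferInstance, inferInstance,
      { toFun := fun x => (x.down : Submodule ℚ (WW U AA))
        map_sup' := fun _ _ => rfl
        map_inf' := fun _ _ => rfl }, ?_⟩
    intro a b hab
    exact ULift.ext _ _ (Subtype.ext hab)
  have hne : Nonempty (ULift.{u} S) := ⟨F (fun i => ULift.up ⊥)⟩
  have h1 := (h (ULift.{u} S)).1 hS
  have h2 : ∀ φ ∈ T, ∀ᶠ i in (U : Filter ℕ), M i ⊨ φ := by
    intro φ hφ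
    refine (models_iff U F ?_ ?_ ?_ ?_ φ).1 (h1 φ hφ)
    · intro x y
      apply ULift.ext
      apply Subtype.ext
      exact PhQ_sup hN hcU
    · intro x y
      apply ULift.ext
      apply Subtype.ext
      exact PhQ_inf hN hcU
    · intro x y
      have : F x = F y ↔ PhQ hN hcU (fun i => (x i).down) = PhQ hN hcU (fun i => (y i).down) := by
        constructor
        · intro h
          exact congrArg (fun z => ((ULift.down z : S) : Submodule ℚ (WW U AA))) h
        · intro h
          exact ULift.ext _ _ (Subtype.ext h)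
      rw [this]
      have h3 := PhQ_eq hN hcU (X := fun i => (x i).down) (Y := fun i => (y i).down)
      refine h3.trans ?_
      simp only [ULift.down_inj]
    · rintro ⟨⟨_, ⟨X, rfl⟩⟩⟩
      exact ⟨fun i => ULift.up (X i), rfl⟩
  have h3 := (Filter.eventually_all_finite hT).2 h2
  obtain ⟨n, hn⟩ := h3.exists
  have h4 : InK.{u, v, w} (M n) := (h (M n)).2 hn
  refine not_InK.{v, w} n (InK.of_embedding
    { toFun := ULift.up
      map_sup' := fun _ _ => rfl
      map_inf' := fun _ _ => rfl } ?_ h4)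
  exact ULift.up_injective

end Final

end Pool.Agent.Helper11.FinAx
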